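import Pool.Agent.Helper73.RT.Defs

/-!
# RT-A7: deletion of maximal edge-disjoint families of cliques
-/

set_option autoImplicit false

open Finset

namespace Pool.Agent.Helper73.RT

theorem del_mem_pairsOf {N : ℕ} (J J' : Finset (Fin N)) (e : Sym2 (Fin N)) :
    e ∈ pairsOf J J' ↔ ∃ x ∈ J, ∃ y ∈ J', x ≠ y ∧ e = s(x, y) := by
  unfold pairsOf
  simp only [Finset.mem_image, Finset.mem_filter, Finset.mem_product, Prod.exists]
  constructor
  · rintro ⟨x, y, ⟨⟨hx, hy⟩, hne⟩, rfl⟩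
    exact ⟨x, hx, y, hy, hne, rfl⟩
  · rintro ⟨x, hx, y, hy, hne, rfl⟩
    exact ⟨x, y, ⟨⟨hx, hy⟩, hne⟩, rfl⟩

/-- A maximal edge-disjoint family of `r`-cliques. -/
theorem del_family {N : ℕ} (G : SimpleGraph (Fin N)) (r : ℕ) (hr : 2 ≤ r) :
    ∃ F : Finset (Finset (Fin N)), (∀ K ∈ F, G.IsNClique r K) ∧ EdgeDisj F ∧
      ∀ K : Finset (Fin N), G.IsNClique r K →
        ∃ e ∈ pairsOf K K, ∃ K' ∈ F, e ∈ pairsOf K' K' := by
  classical
  set S : Finset (Finset (Finset (Fin N))) :=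
    univ.filter fun F => (∀ K ∈ F, G.IsNClique r K) ∧ EdgeDisj F with hS
  have hne : S.Nonempty := by
    refine ⟨∅, ?_⟩
    simp [hS, EdgeDisj]
  obtain ⟨F, hF, hmax⟩ := Finset.exists_max_image S (fun F => F.card) hne
  rw [hS, Finset.mem_filter] at hF
  obtain ⟨-, hF1, hF2⟩ := hF
  refine ⟨F, hF1, hF2, fun K hK => ?_⟩
  by_contra hcon
  push Not at hcon
  -- K is not a member
  have hKF : K ∉ F := by
    intro hKF
    have h2 : 1 < K.card := by rw [hK.card_eq]; omega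
    obtain ⟨x, hx, y, hy, hxy⟩ := Finset.one_lt_card.mp h2
    have he : s(x, y) ∈ pairsOf K K := (del_mem_pairsOf K K _).2 ⟨x, hx, y, hy, hxy, rfl⟩
    exact hcon _ he K hKF he
  have hins : insert K F ∈ S := by
    rw [hS, Finset.mem_filter]
    refine ⟨Finset.mem_univ _, ?_, ?_⟩
    · intro K' hK'
      rcases Finset.mem_insert.mp hK' with rfl | h
      · exact hK
      · exact hF1 K' h
    · intro K1 hK1 K2 hK2 hne12
      rcases Finset.mem_insert.mp hK1 with h1 | h1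
      · rcases Finset.mem_insert.mp hK2 with h2 | h2
        · exact absurd (h1.trans h2.symm) hne12
        · subst h1
          rw [Finset.disjoint_left]
          intro e he he'
          exact hcon e he K2 h2 he'
      · rcases Finset.mem_insert.mp hK2 with h2 | h2
        · subst h2
          rw [Finset.disjoint_left]
          intro e he he'
          exact hcon e he' K1 h1 he
        · exact hF2 K1 h1 K2 h2 hne12
  have h3 := hmax _ hins
  rw [Finset.card_insert_of_notMem hKF] at h3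
  omega

/-- RT-A7. Deletion of the edges of maximal edge-disjoint families of triangles and `K_4`
(needs A6). -/
theorem deletion {N : ℕ} (R B : SimpleGraph (Fin N)) (hRB : R ≤ B) :
    ∃ R' B' : SimpleGraph (Fin N), R' ≤ B' ∧ R' ≤ R ∧ B' ≤ B ∧ R'.CliqueFree 3 ∧
      B'.CliqueFree 4 ∧
      ∃ F3 F4 : Finset (Finset (Fin N)),
        (∀ K ∈ F3, R.IsNClique 3 K) ∧ (∀ K ∈ F4, B.IsNClique 4 K) ∧
        EdgeDisj F3 ∧ EdgeDisj F4 ∧
        (∀ e ∈ R.edgeSet, e ∉ R'.edgeSet →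
          (∃ K ∈ F3, e ∈ pairsOf K K) ∨ (∃ K ∈ F4, e ∈ pairsOf K K)) ∧
        (∀ e ∈ B.edgeSet, e ∉ B'.edgeSet → ∃ K ∈ F4, e ∈ pairsOf K K) := by
  classical
  obtain ⟨F3, h31, h32, h33⟩ := del_family R 3 (by norm_num)
  obtain ⟨F4, h41, h42, h43⟩ := del_family B 4 (by norm_num)
  let R' : SimpleGraph (Fin N) :=
    { Adj := fun x y => R.Adj x y ∧ (∀ K ∈ F3, s(x, y) ∉ pairsOf K K) ∧
        ∀ K ∈ F4, s(x, y) ∉ pairsOf K K
      symm := ⟨fun x y h => ⟨h.1.symm, by rw [Sym2.eq_swap]; exact h.2⟩⟩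
      loopless := ⟨fun x h => R.loopless.irrefl x h.1⟩ }
  let B' : SimpleGraph (Fin N) :=
    { Adj := fun x y => B.Adj x y ∧ ∀ K ∈ F4, s(x, y) ∉ pairsOf K K
      symm := ⟨fun x y h => ⟨h.1.symm, by rw [Sym2.eq_swap]; exact h.2⟩⟩
      loopless := ⟨fun x h => B.loopless.irrefl x h.1⟩ }
  have hR' : R' ≤ R := fun x y h => h.1
  have hB' : B' ≤ B := fun x y h => h.1
  refine ⟨R', B', fun x y h => ⟨hRB h.1, h.2.2⟩, hR', hB', ?_, ?_, F3, F4, h31, h41, h32, h42,
    ?_, ?_⟩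
  · intro K hK
    have hKR : R.IsNClique 3 K := hK.mono hR'
    obtain ⟨e, he, K', hK', he'⟩ := h33 K hKR
    obtain ⟨x, hx, y, hy, hxy, rfl⟩ := (del_mem_pairsOf K K e).1 he
    have hadj : R'.Adj x y := hK.isClique hx hy hxy
    exact hadj.2.1 K' hK' he'
  · intro K hK
    have hKB : B.IsNClique 4 K := hK.mono hB'
    obtain ⟨e, he, K', hK', he'⟩ := h43 K hKB
    obtain ⟨x, hx, y, hy, hxy, rfl⟩ := (del_mem_pairsOf K K e).1 he
    have hadj : B'.Adj x y := hK.isClique hx hy hxy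
    exact hadj.2 K' hK' he'
  · intro e
    refine Sym2.ind (fun x y => ?_) e
    intro he hne
    rw [SimpleGraph.mem_edgeSet] at he hne
    by_contra hcon
    push Not at hcon
    exact hne ⟨he, hcon.1, hcon.2⟩
  · intro e
    refine Sym2.ind (fun x y => ?_) e
    intro he hne
    rw [SimpleGraph.mem_edgeSet] at he hne
    by_contra hcon
    push Not at hcon
    exact hne ⟨he, hcon⟩

end Pool.Agent.Helper73.RT
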